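import Mathlib

set_option autoImplicit false

open MeasureTheory Metric Set
open scoped RealInnerProductSpace Pointwise

namespace Pool.Agent.Results.MP_4e5529_gt.CylinderCut

section Defs

variable {E : Type*} [NormedAddCommGroup E] [InnerProductSpace ℝ E]

/-- The Banach-Mazur distance
`d(L, M) = inf {c ≥ 1 : M ⊆ T L ⊆ c M for some invertible linear map T}`. -/
noncomputable def bmDist (L M : Set E) : ℝ :=
  sInf {c : ℝ | 1 ≤ c ∧ ∃ T : E ≃ₗ[ℝ] E, M ⊆ T '' L ∧ T '' L ⊆ c • M}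

variable [FiniteDimensional ℝ E] [MeasurableSpace E] [BorelSpace E]

/-- `vol_{n-1}(K ∩ u^⊥)`: the volume of the central section of `K` by the hyperplane orthogonal to
`u`, with respect to the Lebesgue measure of the Euclidean space `u^⊥`. -/
noncomputable def sectionVol (K : Set E) (u : E) : ℝ :=
  (volume {x : (ℝ ∙ u)ᗮ | (x : E) ∈ K}).toReal

/-- The intersection body `IK`: the star body with radial function
`ρ(u) = vol_{n-1}(K ∩ u^⊥)` for unit vectors `u`. -/
def intersectionBody (K : Set E) : Set E :=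
  {0} ∪ {x | x ≠ 0 ∧ ‖x‖ ≤ sectionVol K (‖x‖⁻¹ • x)}

end Defs

abbrev E3 := EuclideanSpace ℝ (Fin 3)
abbrev E2 := EuclideanSpace ℝ (Fin 2)

/-- the map `p ↦ p 0 • v + p 1 • w` -/
noncomputable def planeMap (v w : E3) : E2 →ₗ[ℝ] E3 where
  toFun p := p 0 • v + p 1 • w
  map_add' p q := by simp [add_smul]; abel
  map_smul' c p := by simp [smul_smul]

theorem planeMap_apply (v w : E3) (p : E2) : planeMap v w p = p 0 • v + p 1 • w := rfl

theorem volume_section (u v w : E3) (hu : ‖u‖ = 1) (hv : ‖v‖ = 1) (hw : ‖w‖ = 1)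
    (huv : ⟪u, v⟫ = 0) (huw : ⟪u, w⟫ = 0) (hvw : ⟪v, w⟫ = 0) (K : Set E3) :
    volume {x : (ℝ ∙ u)ᗮ | (x : E3) ∈ K} = volume {p : E2 | p 0 • v + p 1 • w ∈ K} := by
  have hmem : ∀ p : E2, planeMap v w p ∈ (ℝ ∙ u)ᗮ := by
    intro p
    rw [Submodule.mem_orthogonal_singleton_iff_inner_right, planeMap_apply, inner_add_right,
      inner_smul_right, inner_smul_right, huv, huw]
    simp
  let L0 : E2 →ₗ[ℝ] (ℝ ∙ u)ᗮ := (planeMap v w).codRestrict _ hmem
  have hL0 : ∀ p, ((L0 p : (ℝ ∙ u)ᗮ) : E3) = p 0 • v + p 1 • w := fun p => rfl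
  let L : E2 →ₗᵢ[ℝ] (ℝ ∙ u)ᗮ := ⟨L0, by
    intro p
    have h1 : ‖L0 p‖ ^ 2 = ‖p‖ ^ 2 := by
      rw [← Submodule.norm_coe, hL0, ← real_inner_self_eq_norm_sq, EuclideanSpace.norm_sq_eq]
      simp only [inner_add_left, inner_add_right, inner_smul_left, inner_smul_right]
      rw [real_inner_self_eq_norm_sq, real_inner_self_eq_norm_sq, hvw, real_inner_comm v w, hvw,
        hv, hw]
      simp [Fin.sum_univ_two]
      ring
    exact (sq_eq_sq₀ (norm_nonneg _) (norm_nonneg _)).1 h1⟩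
  have hu0 : u ≠ 0 := by
    intro h
    rw [h, norm_zero] at hu
    norm_num at hu
  have : Fact (Module.finrank ℝ E3 = 2 + 1) := ⟨by simp⟩
  have hfin : Module.finrank ℝ E2 = Module.finrank ℝ (ℝ ∙ u)ᗮ := by
    rw [Submodule.finrank_orthogonal_span_singleton (n := 2) hu0]
    simp
  let Le : E2 ≃ₗᵢ[ℝ] (ℝ ∙ u)ᗮ := L.toLinearIsometryEquiv hfin
  have hLe : ∀ p, ((Le p : (ℝ ∙ u)ᗮ) : E3) = p 0 • v + p 1 • w := fun p => rfl
  have hmp := Le.measurePreserving
  rw [← hmp.measure_preimage_emb Le.toHomeomorph.measurableEmbedding]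
  rfl

/-- the truncation parameter -/
noncomputable def a : ℝ := 9999 / 10000

/-- The body: the Euclidean unit ball intersected with a thin cylinder. -/
def K : Set E3 := {x | ‖x‖ ≤ 1 ∧ x 0 ^ 2 + x 1 ^ 2 ≤ a ^ 2}

theorem K_symm : ∀ x ∈ K, -x ∈ K := by
  intro x hx
  refine ⟨by rw [norm_neg]; exact hx.1, ?_⟩
  simpa using hx.2

theorem K_convex : Convex ℝ K := by
  have h1 : Convex ℝ (closedBall (0 : E3) 1) := convex_closedBall _ _
  intro x hx y hy s t hs ht hst
  constructor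
  · have := h1 (x := x) (by simpa using hx.1) (y := y) (by simpa using hy.1) hs ht hst
    simpa using this
  · have hx2 := hx.2
    have hy2 := hy.2
    simp only [PiLp.add_apply, PiLp.smul_apply, smul_eq_mul]
    have ht' : t = 1 - s := by linarith
    subst ht'
    nlinarith [mul_nonneg hs ht, sq_nonneg (x 0 - y 0), sq_nonneg (x 1 - y 1),
      mul_nonneg (mul_nonneg hs ht) (sq_nonneg (x 0 - y 0)),
      mul_nonneg (mul_nonneg hs ht) (sq_nonneg (x 1 - y 1)),
      mul_le_mul_of_nonneg_left hx2 hs, mul_le_mul_of_nonneg_left hy2 ht]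

theorem norm_sq3 (x : E3) : ‖x‖ ^ 2 = x 0 ^ 2 + x 1 ^ 2 + x 2 ^ 2 := by
  rw [EuclideanSpace.norm_sq_eq]; simp [Fin.sum_univ_three]

theorem norm_sq2 (x : E2) : ‖x‖ ^ 2 = x 0 ^ 2 + x 1 ^ 2 := by
  rw [EuclideanSpace.norm_sq_eq]; simp [Fin.sum_univ_two]

theorem ball_sub_K : closedBall (0 : E3) a ⊆ K := by
  intro x hx
  have hx' : ‖x‖ ≤ a := by simpa using hx
  have h2 : ‖x‖ ^ 2 ≤ a ^ 2 := by gcongr
  refine ⟨hx'.trans (by unfold a; norm_num), ?_⟩
  rw [norm_sq3] at h2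
  nlinarith [sq_nonneg (x 2)]

theorem K_sub_ball : K ⊆ closedBall (0 : E3) 1 := by
  intro x hx
  simpa using hx.1

theorem a_pos : 0 < a := by unfold a; norm_num

theorem K_closed : IsClosed K := by
  have h1 : IsClosed {x : E3 | ‖x‖ ≤ 1} := isClosed_le continuous_norm continuous_const
  have h2 : IsClosed {x : E3 | x 0 ^ 2 + x 1 ^ 2 ≤ a ^ 2} :=
    isClosed_le (by fun_prop) continuous_const
  exact h1.inter h2

theorem K_compact : IsCompact K :=
  (isCompact_closedBall (0 : E3) 1).of_isClosed_subset K_closed K_sub_ball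

theorem K_interior : (interior K).Nonempty := by
  refine ⟨0, ?_⟩
  rw [mem_interior_iff_mem_nhds]
  exact Filter.mem_of_superset (closedBall_mem_nhds (0 : E3) a_pos) ball_sub_K


theorem vol_closedBall_two (r : ℝ) (hr : 0 ≤ r) :
    (volume (closedBall (0 : E2) r)).toReal = Real.pi * r ^ 2 := by
  rw [EuclideanSpace.volume_closedBall_fin_two, ENNReal.toReal_mul, ENNReal.toReal_pow,
    ENNReal.toReal_ofReal hr, ENNReal.toReal_ofReal Real.pi_pos.le]
  ring

theorem finite_of_sub {s : Set E2} {r : ℝ} (h : s ⊆ closedBall (0 : E2) r) : volume s ≠ ⊤ :=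
  ne_top_of_le_ne_top (measure_closedBall_lt_top).ne (measure_mono h)

section frame

variable {u v w : E3} (hu : ‖u‖ = 1) (hv : ‖v‖ = 1) (hw : ‖w‖ = 1)
    (huv : ⟪u, v⟫ = 0) (huw : ⟪u, w⟫ = 0) (hvw : ⟪v, w⟫ = 0)

include hv hw hvw in
theorem norm_plane (p : E2) : ‖p 0 • v + p 1 • w‖ = ‖p‖ := by
  have h1 : ‖p 0 • v + p 1 • w‖ ^ 2 = ‖p‖ ^ 2 := by
    rw [← real_inner_self_eq_norm_sq, norm_sq2]
    simp only [inner_add_left, inner_add_right, inner_smul_left, inner_smul_right]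
    rw [real_inner_self_eq_norm_sq, real_inner_self_eq_norm_sq, hvw, real_inner_comm v w, hvw,
      hv, hw]
    simp
    ring
  exact (sq_eq_sq₀ (norm_nonneg _) (norm_nonneg _)).1 h1

include hu hv hw huv huw hvw in
theorem sectionVol_le_of_sub {C : Set E3} {r : ℝ} (hr : 0 ≤ r)
    (h : C ⊆ closedBall (0 : E3) r) : sectionVol C u ≤ Real.pi * r ^ 2 := by
  unfold sectionVol
  rw [volume_section u v w hu hv hw huv huw hvw, ← vol_closedBall_two r hr]
  refine ENNReal.toReal_mono measure_closedBall_lt_top.ne (measure_mono ?_)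
  intro p hp
  have := h hp
  rw [mem_closedBall_zero_iff, norm_plane hv hw hvw] at this
  rwa [mem_closedBall_zero_iff]

include hu hv hw huv huw hvw in
theorem le_sectionVol_of_sub {C : Set E3} {r R : ℝ} (hr : 0 ≤ r)
    (h : closedBall (0 : E3) r ⊆ C) (h2 : C ⊆ closedBall (0 : E3) R) :
    Real.pi * r ^ 2 ≤ sectionVol C u := by
  unfold sectionVol
  rw [volume_section u v w hu hv hw huv huw hvw, ← vol_closedBall_two r hr]
  refine ENNReal.toReal_mono (finite_of_sub (r := R) ?_) (measure_mono ?_)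
  · intro p hp
    have := h2 hp
    rw [mem_closedBall_zero_iff, norm_plane hv hw hvw] at this
    rwa [mem_closedBall_zero_iff]
  · intro p hp
    rw [mem_closedBall_zero_iff] at hp
    apply h
    rwa [mem_closedBall_zero_iff, norm_plane hv hw hvw]

end frame

/-- every unit vector is part of an orthonormal frame -/
theorem exists_frame (u : E3) (hu : ‖u‖ = 1) : ∃ v w : E3, ‖v‖ = 1 ∧ ‖w‖ = 1 ∧
    ⟪u, v⟫ = 0 ∧ ⟪u, w⟫ = 0 ∧ ⟪v, w⟫ = 0 := by
  have hu0 : u ≠ 0 := by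
    intro h
    rw [h, norm_zero] at hu
    norm_num at hu
  have : Fact (Module.finrank ℝ E3 = 2 + 1) := ⟨by simp⟩
  have hfin : Module.finrank ℝ (ℝ ∙ u)ᗮ = 2 := Submodule.finrank_orthogonal_span_singleton hu0
  let b := (stdOrthonormalBasis ℝ (ℝ ∙ u)ᗮ).reindex (finCongr hfin)
  have hb := b.orthonormal
  refine ⟨b 0, b 1, ?_, ?_, ?_, ?_, ?_⟩
  · exact hb.1 0
  · exact hb.1 1
  · exact Submodule.mem_orthogonal_singleton_iff_inner_right.1 (b 0).2
  · exact Submodule.mem_orthogonal_singleton_iff_inner_right.1 (b 1).2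
  · exact hb.2 (i := 0) (j := 1) (by decide)

theorem sectionVol_le (u : E3) (hu : ‖u‖ = 1) : sectionVol K u ≤ Real.pi := by
  obtain ⟨v, w, hv, hw, huv, huw, hvw⟩ := exists_frame u hu
  have := sectionVol_le_of_sub hu hv hw huv huw hvw zero_le_one K_sub_ball
  simpa using this

theorem le_sectionVol (u : E3) (hu : ‖u‖ = 1) : Real.pi * a ^ 2 ≤ sectionVol K u := by
  obtain ⟨v, w, hv, hw, huv, huw, hvw⟩ := exists_frame u hu
  exact le_sectionVol_of_sub hu hv hw huv huw hvw a_pos.le ball_sub_K K_sub_ball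

/-- the basis vectors -/
noncomputable def e1 : E3 := !₂[1, 0, 0]
noncomputable def e2 : E3 := !₂[0, 1, 0]
noncomputable def e3 : E3 := !₂[0, 0, 1]

theorem inner3 (x y : E3) : ⟪x, y⟫ = x 0 * y 0 + x 1 * y 1 + x 2 * y 2 := by
  rw [PiLp.inner_apply]; simp [Fin.sum_univ_three]; ring

theorem norm3_one (x : E3) (h : x 0 ^ 2 + x 1 ^ 2 + x 2 ^ 2 = 1) : ‖x‖ = 1 := by
  have := norm_sq3 x
  rw [h] at this
  have h2 : ‖x‖ ^ 2 = 1 ^ 2 := by rw [this]; norm_num
  exact (sq_eq_sq₀ (norm_nonneg _) zero_le_one).1 h2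

theorem sectionVol_e3 : sectionVol K e3 ≤ Real.pi * a ^ 2 := by
  have h3 : ‖e3‖ = 1 := norm3_one _ (by simp [e3])
  have h1 : ‖e1‖ = 1 := norm3_one _ (by simp [e1])
  have h2 : ‖e2‖ = 1 := norm3_one _ (by simp [e2])
  unfold sectionVol
  rw [volume_section e3 e1 e2 h3 h1 h2 (by simp [inner3, e3, e1]) (by simp [inner3, e3, e2])
    (by simp [inner3, e1, e2]), ← vol_closedBall_two a a_pos.le]
  refine ENNReal.toReal_mono measure_closedBall_lt_top.ne (measure_mono ?_)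
  intro p hp
  have h4 := hp.2
  simp [e1, e2] at h4
  rw [mem_closedBall_zero_iff]
  have h5 := norm_sq2 p
  have : ‖p‖ ^ 2 ≤ a ^ 2 := by rw [h5]; exact h4
  exact (sq_le_sq₀ (norm_nonneg _) a_pos.le).1 this

/-- the tilted unit vectors -/
noncomputable def up (s : ℝ) : E3 := !₂[s / 2, 0, √3 / 2]
noncomputable def wp (s : ℝ) : E3 := !₂[√3 / 2, 0, - s / 2]

theorem sq3 : (√3 : ℝ) ^ 2 = 3 := Real.sq_sqrt (by norm_num)

/-- a box in the plane -/
def box (x0 x1 y0 y1 : ℝ) : Set E2 := {p | (x0 ≤ p 0 ∧ p 0 ≤ x1) ∧ (y0 ≤ p 1 ∧ p 1 ≤ y1)}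

theorem volume_box (x0 x1 y0 y1 : ℝ) (hx : x0 ≤ x1) (_hy : y0 ≤ y1) :
    volume (box x0 x1 y0 y1) = ENNReal.ofReal ((x1 - x0) * (y1 - y0)) := by
  have h1 := (EuclideanSpace.volume_preserving_symm_measurableEquiv_toLp (Fin 2))
  have h2 : box x0 x1 y0 y1 = (MeasurableEquiv.toLp 2 (Fin 2 → ℝ)).symm ⁻¹'
      (Set.Icc (![x0, y0] : Fin 2 → ℝ) ![x1, y1]) := by
    ext p
    simp only [box, Set.mem_ofPred_eq, Set.mem_preimage, Set.mem_Icc, Pi.le_def, Fin.forall_fin_two]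
    simp
    tauto
  rw [h2, h1.measure_preimage_equiv, Real.volume_Icc_pi]
  simp [Fin.prod_univ_two]
  rw [← ENNReal.ofReal_mul (by linarith)]

theorem sectionVol_up (s : ℝ) (hs : s ^ 2 = 1) :
    Real.pi - 5.68e-5 ≤ sectionVol K (up s) := by
  have h3 := sq3
  have hu : ‖up s‖ = 1 := norm3_one _ (by simp [up]; nlinarith)
  have hw : ‖wp s‖ = 1 := norm3_one _ (by simp [wp]; nlinarith)
  have he2 : ‖e2‖ = 1 := norm3_one _ (by simp [e2])
  have hvol := volume_section (up s) e2 (wp s) hu he2 hw (by simp [inner3, up, e2])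
    (by simp [inner3, up, wp]; ring) (by simp [inner3, e2, wp]) K
  have hsub : closedBall (0 : E2) 1 ⊆ {p : E2 | p 0 • e2 + p 1 • wp s ∈ K} ∪
      (box 0.9995 1 (-0.0284) 0.0284 ∪ box (-1) (-0.9995) (-0.0284) 0.0284) := by
    intro p hp
    rw [mem_closedBall_zero_iff] at hp
    have hp2 : p 0 ^ 2 + p 1 ^ 2 ≤ 1 := by
      have := norm_sq2 p
      nlinarith [norm_nonneg p]
    by_cases h : p 0 ^ 2 + 3 / 4 * p 1 ^ 2 ≤ a ^ 2
    · left
      refine ⟨?_, ?_⟩
      · rw [norm_plane he2 hw (by simp [inner3, e2, wp])]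
        exact hp
      · simp [e2, wp]
        nlinarith
    · right
      push Not at h
      unfold a at h
      have h1 : p 1 ^ 2 ≤ 0.0284 ^ 2 := by norm_num; nlinarith
      have h2 : (0.9995 : ℝ) ^ 2 ≤ p 0 ^ 2 := by norm_num; nlinarith
      have h1' := abs_le_of_sq_le_sq' h1 (by norm_num)
      have h4 : (0.9995 : ℝ) ≤ |p 0| := by
        have := sq_le_sq.1 h2
        rwa [abs_of_pos (by norm_num : (0:ℝ) < 0.9995)] at this
      have h5 : |p 0| ≤ 1 := by
        rw [← sq_le_sq₀ (abs_nonneg _) zero_le_one, sq_abs]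
        nlinarith [sq_nonneg (p 1)]
      rcases le_abs.1 h4 with h6 | h6
      · left
        exact ⟨⟨h6, (le_abs_self _).trans h5⟩, h1'⟩
      · right
        refine ⟨⟨?_, by linarith⟩, h1'⟩
        have := neg_abs_le (p 0)
        linarith
  have hmeas := (measure_mono (μ := volume) hsub).trans ((measure_union_le _ _).trans
    (add_le_add_right (measure_union_le _ _) _))
  rw [volume_box _ _ _ _ (by norm_num) (by norm_num),
    volume_box _ _ _ _ (by norm_num) (by norm_num), ← hvol] at hmeas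
  have hfin : volume {x : (ℝ ∙ (up s))ᗮ | (x : E3) ∈ K} ≠ ⊤ := by
    rw [hvol]
    refine finite_of_sub (r := 1) ?_
    intro p hp
    have := hp.1
    rw [norm_plane he2 hw (by simp [inner3, e2, wp])] at this
    rwa [mem_closedBall_zero_iff]
  have h6 := ENNReal.toReal_mono (by
    refine ENNReal.add_ne_top.2 ⟨hfin, ?_⟩
    exact ENNReal.add_ne_top.2 ⟨ENNReal.ofReal_ne_top, ENNReal.ofReal_ne_top⟩) hmeas
  rw [vol_closedBall_two 1 zero_le_one, ENNReal.toReal_add hfin (by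
    exact ENNReal.add_ne_top.2 ⟨ENNReal.ofReal_ne_top, ENNReal.ofReal_ne_top⟩),
    ENNReal.toReal_add ENNReal.ofReal_ne_top ENNReal.ofReal_ne_top,
    ENNReal.toReal_ofReal (by norm_num), ENNReal.toReal_ofReal (by norm_num)] at h6
  unfold sectionVol
  norm_num at h6 ⊢
  linarith


/-- the constraints on an admissible factor `c` for `IK` and the ball -/
theorem key {c : ℝ} (hc : 1 ≤ c) (T : E3 ≃ₗ[ℝ] E3)
    (h1 : closedBall (0 : E3) 1 ⊆ T '' (intersectionBody K))
    (h2 : T '' (intersectionBody K) ⊆ c • closedBall (0 : E3) 1) : 1.00026 ≤ c ^ 2 := by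
  have hc0 : 0 < c := by linarith
  have hpi := Real.pi_gt_three
  have hpos : ∀ u : E3, ‖u‖ = 1 → 0 < sectionVol K u := by
    intro u hu
    have := le_sectionVol u hu
    have ha : 0 < a ^ 2 := pow_pos a_pos 2
    have := mul_pos Real.pi_pos ha
    linarith
  -- upper bound for the quadratic form
  have hupper : ∀ u : E3, ‖u‖ = 1 → ‖T u‖ * sectionVol K u ≤ c := by
    intro u hu
    have hu0 : u ≠ 0 := by
      intro h
      rw [h, norm_zero] at hu
      norm_num at hu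
    have hs := hpos u hu
    have hmem : (sectionVol K u) • u ∈ intersectionBody K := by
      right
      refine ⟨smul_ne_zero hs.ne' hu0, ?_⟩
      rw [norm_smul, hu, Real.norm_of_nonneg hs.le, mul_one, smul_smul, inv_mul_cancel₀ hs.ne',
        one_smul]
    have := h2 (Set.mem_image_of_mem T hmem)
    rw [_root_.smul_closedBall _ _ zero_le_one, smul_zero, mem_closedBall_zero_iff,
      Real.norm_of_nonneg hc0.le, mul_one, map_smul, norm_smul, Real.norm_of_nonneg hs.le] at this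
    linarith
  have hlower : ∀ u : E3, ‖u‖ = 1 → 1 ≤ ‖T u‖ * sectionVol K u := by
    intro u hu
    have hu0 : u ≠ 0 := by
      intro h
      rw [h, norm_zero] at hu
      norm_num at hu
    have hTu : T u ≠ 0 := by
      intro h
      exact hu0 (by simpa using h)
    have hn : 0 < ‖T u‖ := norm_pos_iff.2 hTu
    have hmem : T (‖T u‖⁻¹ • u) ∈ closedBall (0 : E3) 1 := by
      rw [mem_closedBall_zero_iff, map_smul, norm_smul, norm_inv, norm_norm,
        inv_mul_cancel₀ hn.ne']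
    obtain ⟨y, hy, hyT⟩ := h1 hmem
    have hy' : y = ‖T u‖⁻¹ • u := T.injective hyT
    rcases hy with hy | ⟨-, hy⟩
    · exfalso
      rw [hy'] at hy
      exact smul_ne_zero (inv_ne_zero hn.ne') hu0 hy
    · rw [hy', norm_smul, norm_inv, norm_norm, hu, mul_one, inv_inv, smul_smul,
        mul_inv_cancel₀ hn.ne', one_smul] at hy
      have := mul_le_mul_of_nonneg_left hy hn.le
      rwa [mul_inv_cancel₀ hn.ne'] at this
  have h3 := sq3
  have n3 : ‖e3‖ = 1 := norm3_one _ (by simp [e3])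
  have n1 : ‖e1‖ = 1 := norm3_one _ (by simp [e1])
  have nu : ∀ s : ℝ, s ^ 2 = 1 → ‖up s‖ = 1 := fun s hs => norm3_one _ (by simp [up]; nlinarith)
  have hup : ∀ s : ℝ, up s = (√3 / 2) • e3 + (s / 2) • e1 := by
    intro s
    ext i
    fin_cases i <;> simp [up, e1, e3]
  -- parallelogram identity
  have hpar : ‖T (up 1)‖ ^ 2 + ‖T (up (-1))‖ ^ 2 = 3 / 2 * ‖T e3‖ ^ 2 + 1 / 2 * ‖T e1‖ ^ 2 := by
    rw [hup, hup, map_add, map_add, map_smul, map_smul, map_smul,
      ← real_inner_self_eq_norm_sq, ← real_inner_self_eq_norm_sq, ← real_inner_self_eq_norm_sq,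
      ← real_inner_self_eq_norm_sq]
    simp only [inner_add_left, inner_add_right, inner_smul_left, inner_smul_right,
      real_inner_comm (T e3) (T e1)]
    simp
    ring_nf
    rw [h3]
    ring
  set m : ℝ := Real.pi - 5.68e-5 with hm
  have hm0 : 0 < m := by rw [hm]; norm_num; linarith
  have b1 : ∀ s : ℝ, s ^ 2 = 1 → ‖T (up s)‖ ^ 2 * m ^ 2 ≤ c ^ 2 := by
    intro s hs
    have e1 := hupper (up s) (nu s hs)
    have e2 := sectionVol_up s hs
    have e3 : ‖T (up s)‖ * m ≤ c :=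
      (mul_le_mul_of_nonneg_left e2 (norm_nonneg _)).trans e1
    rw [← mul_pow]
    exact pow_le_pow_left₀ (mul_nonneg (norm_nonneg _) hm0.le) e3 2
  have b3 : 1 ≤ ‖T e3‖ ^ 2 * (Real.pi * a ^ 2) ^ 2 := by
    have e1 := hlower e3 n3
    have e2 := mul_le_mul_of_nonneg_left sectionVol_e3 (norm_nonneg (T e3))
    rw [← mul_pow]
    exact one_le_pow₀ (e1.trans e2)
  have b4 : 1 ≤ ‖T e1‖ ^ 2 * Real.pi ^ 2 := by
    have e4 := hlower e1 n1
    have e2 := mul_le_mul_of_nonneg_left (sectionVol_le e1 n1) (norm_nonneg (T e1))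
    rw [← mul_pow]
    exact one_le_pow₀ (e4.trans e2)
  have b5 := b1 1 (by norm_num)
  have b6 := b1 (-1) (by norm_num)
  -- rescale by pi
  have hmpi : (1 - 1.9e-5) * Real.pi ≤ m := by rw [hm]; norm_num; linarith
  have hm2 : ((1 - 1.9e-5) * Real.pi) ^ 2 ≤ m ^ 2 :=
    pow_le_pow_left₀ (by norm_num; positivity) hmpi 2
  have ha : a = 9999 / 10000 := rfl
  rw [ha] at b3
  set P := ‖T e3‖ ^ 2 * Real.pi ^ 2 with hP
  set Q := ‖T e1‖ ^ 2 * Real.pi ^ 2 with hQ
  have b3' : 1 ≤ P * (9999 / 10000) ^ 4 := by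
    rw [hP]
    calc (1 : ℝ) ≤ _ := b3
      _ = _ := by ring
  have b7 : (3 / 2 * ‖T e3‖ ^ 2 + 1 / 2 * ‖T e1‖ ^ 2) * m ^ 2 ≤ 2 * c ^ 2 := by
    rw [← hpar]
    linarith
  have b8 : (3 / 2 * ‖T e3‖ ^ 2 + 1 / 2 * ‖T e1‖ ^ 2) * ((1 - 1.9e-5) * Real.pi) ^ 2
      ≤ 2 * c ^ 2 :=
    (mul_le_mul_of_nonneg_left hm2 (by positivity)).trans b7
  have b9 : (1 - 1.9e-5) ^ 2 * (3 / 2 * P + 1 / 2 * Q) ≤ 2 * c ^ 2 := by
    rw [hP, hQ]
    calc _ = _ := by ring
      _ ≤ _ := b8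
  norm_num at b3' b9 b4 ⊢
  linarith

/-- The upper bound for the distance of `K` to the ball. -/
theorem bmDist_K_le : bmDist K (closedBall (0 : E3) 1) ≤ 10000 / 9999 := by
  have ha : a⁻¹ = 10000 / 9999 := by unfold a; norm_num
  refine csInf_le ⟨1, fun c hc => hc.1⟩ ⟨by norm_num, ?_⟩
  refine ⟨LinearEquiv.smulOfNeZero ℝ E3 a⁻¹ (inv_ne_zero a_pos.ne'), ?_, ?_⟩
  · intro x hx
    refine ⟨a • x, ball_sub_K ?_, ?_⟩
    · rw [mem_closedBall_zero_iff] at hx ⊢
      rw [norm_smul, Real.norm_of_nonneg a_pos.le]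
      nlinarith [a_pos]
    · simp [smul_smul, a_pos.ne']
  · rintro _ ⟨x, hx, rfl⟩
    have := K_sub_ball hx
    rw [_root_.smul_closedBall _ _ zero_le_one, smul_zero, mem_closedBall_zero_iff]
    rw [mem_closedBall_zero_iff] at this
    rw [LinearEquiv.smulOfNeZero_apply, norm_smul, ha]
    rw [Real.norm_of_nonneg (by norm_num)]
    nlinarith

/-- `IK` and the ball are at finite distance. -/
theorem nonempty_set : {c : ℝ | 1 ≤ c ∧ ∃ T : E3 ≃ₗ[ℝ] E3,
    closedBall (0 : E3) 1 ⊆ T '' (intersectionBody K) ∧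
      T '' (intersectionBody K) ⊆ c • closedBall (0 : E3) 1}.Nonempty := by
  have hr : 0 < Real.pi * a ^ 2 := mul_pos Real.pi_pos (pow_pos a_pos 2)
  have ha2 : (a ^ 2)⁻¹ ≥ 1 := by unfold a; norm_num
  refine ⟨(a ^ 2)⁻¹, ha2, LinearEquiv.smulOfNeZero ℝ E3 (Real.pi * a ^ 2)⁻¹
    (inv_ne_zero hr.ne'), ?_, ?_⟩
  · intro x hx
    rw [mem_closedBall_zero_iff] at hx
    refine ⟨(Real.pi * a ^ 2) • x, ?_, ?_⟩
    · by_cases h0 : x = 0
      · left; simp [h0]
      · right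
        refine ⟨smul_ne_zero hr.ne' h0, ?_⟩
        have hu : ‖(‖(Real.pi * a ^ 2) • x‖⁻¹ • ((Real.pi * a ^ 2) • x))‖ = 1 := by
          rw [norm_smul, norm_inv, norm_norm]
          exact inv_mul_cancel₀ (norm_ne_zero_iff.2 (smul_ne_zero hr.ne' h0))
        refine le_trans ?_ (le_sectionVol _ hu)
        rw [norm_smul, Real.norm_of_nonneg hr.le]
        nlinarith
    · rw [LinearEquiv.smulOfNeZero_apply, smul_smul, inv_mul_cancel₀ hr.ne', one_smul]
  · rintro _ ⟨x, hx, rfl⟩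
    rw [_root_.smul_closedBall _ _ zero_le_one, smul_zero, mem_closedBall_zero_iff,
      LinearEquiv.smulOfNeZero_apply, norm_smul, norm_inv, Real.norm_of_nonneg hr.le,
      norm_inv, Real.norm_of_nonneg (pow_pos a_pos 2).le, mul_one]
    have hx' : ‖x‖ ≤ Real.pi := by
      rcases hx with hx | ⟨h0, hx⟩
      · have : x = 0 := hx
        rw [this, norm_zero]; exact Real.pi_pos.le
      · refine hx.trans (sectionVol_le _ ?_)
        rw [norm_smul, norm_inv, norm_norm]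
        exact inv_mul_cancel₀ (norm_ne_zero_iff.2 h0)
    rw [mul_inv, mul_assoc]
    have h5 : (a ^ 2)⁻¹ * ‖x‖ ≤ (a ^ 2)⁻¹ * Real.pi :=
      mul_le_mul_of_nonneg_left hx' (by positivity)
    calc Real.pi⁻¹ * ((a ^ 2)⁻¹ * ‖x‖) ≤ Real.pi⁻¹ * ((a ^ 2)⁻¹ * Real.pi) :=
          mul_le_mul_of_nonneg_left h5 (by positivity)
      _ = (a ^ 2)⁻¹ := by
          field_simp

theorem le_bmDist_IK : 1.00012 ≤ bmDist (intersectionBody K) (closedBall (0 : E3) 1) := by
  refine le_csInf nonempty_set ?_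
  rintro c ⟨hc, T, h1, h2⟩
  have := key hc T h1 h2
  by_contra h
  push Not at h
  have h3 : c ^ 2 < 1.00012 ^ 2 := by nlinarith
  norm_num at h3 this
  linarith

/-- **The intersection body operator can increase the Banach-Mazur distance to the Euclidean
ball**: there is an origin-symmetric convex body `K` in `ℝ³` with `d(IK, B) > d(K, B)`. -/
theorem result : ∃ K : Set (EuclideanSpace ℝ (Fin 3)),
    Convex ℝ K ∧ IsCompact K ∧ (interior K).Nonempty ∧ (∀ x ∈ K, -x ∈ K) ∧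
    bmDist K (closedBall 0 1) < bmDist (intersectionBody K) (closedBall 0 1) := by
  refine ⟨K, K_convex, K_compact, K_interior, K_symm, ?_⟩
  refine lt_of_le_of_lt bmDist_K_le (lt_of_lt_of_le ?_ le_bmDist_IK)
  norm_num

end Pool.Agent.Results.MP_4e5529_gt.CylinderCut
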